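import Pool.Agent.Helper8.FH.St

/-!
# MP_121524_al, module FH10: the metric reduced product of orthogonal groups
-/

set_option autoImplicit false

namespace Pool.Agent.Helper12.FH

open Pool.Agent.Helper8.FH Matrix Filter Topology

section fro

variable {ι : Type} [Fintype ι]

/-- The square of the Frobenius norm. -/
def fr (M : Matrix ι ι ℝ) : ℝ := ∑ i, ∑ j, M i j ^ 2

theorem fr_nonneg (M : Matrix ι ι ℝ) : 0 ≤ fr M :=
  Finset.sum_nonneg fun _ _ => Finset.sum_nonneg fun _ _ => sq_nonneg _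

theorem fr_eq_trace (M : Matrix ι ι ℝ) : fr M = trace (Mᵀ * M) := by
  unfold fr trace
  rw [Finset.sum_comm]
  refine Finset.sum_congr rfl fun j _ => ?_
  rw [diag_apply, mul_apply]
  refine Finset.sum_congr rfl fun i _ => ?_
  rw [transpose_apply, sq]

theorem fr_transpose (M : Matrix ι ι ℝ) : fr Mᵀ = fr M := by
  unfold fr
  rw [Finset.sum_comm]
  rfl

theorem fr_add_le (M N : Matrix ι ι ℝ) : fr (M + N) ≤ 2 * fr M + 2 * fr N := by
  unfold fr
  rw [Finset.mul_sum, Finset.mul_sum, ← Finset.sum_add_distrib]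
  refine Finset.sum_le_sum fun i _ => ?_
  rw [Finset.mul_sum, Finset.mul_sum, ← Finset.sum_add_distrib]
  refine Finset.sum_le_sum fun j _ => ?_
  rw [Matrix.add_apply]
  nlinarith [sq_nonneg (M i j - N i j)]

variable [DecidableEq ι]

theorem fr_mul_left {O : Matrix ι ι ℝ} (hO : Oᵀ * O = 1) (M : Matrix ι ι ℝ) :
    fr (O * M) = fr M := by
  rw [fr_eq_trace, fr_eq_trace, transpose_mul, Matrix.mul_assoc, ← Matrix.mul_assoc Oᵀ, hO,
    Matrix.one_mul]

theorem fr_mul_right {O : Matrix ι ι ℝ} (hO : O * Oᵀ = 1) (M : Matrix ι ι ℝ) :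
    fr (M * O) = fr M := by
  rw [fr_eq_trace, transpose_mul, Matrix.mul_assoc, trace_mul_comm, Matrix.mul_assoc,
    Matrix.mul_assoc, hO, Matrix.mul_one, fr_eq_trace]

end fro

section real

variable {n : ℕ}

theorem rl_one : rl (1 : Matrix (Fin n) (Fin n) ℂ) = 1 := by
  unfold rl
  rw [← fromBlocks_one]
  congr 1
  · ext i j
    by_cases h : i = j <;> simp [Matrix.one_apply, h]
  · ext i j
    by_cases h : i = j <;> simp [Matrix.one_apply, h]
  · ext i j
    by_cases h : i = j <;> simp [Matrix.one_apply, h]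
  · ext i j
    by_cases h : i = j <;> simp [Matrix.one_apply, h]

theorem rl_mul (u v : Matrix (Fin n) (Fin n) ℂ) : rl (u * v) = rl u * rl v := by
  unfold rl
  rw [fromBlocks_multiply]
  congr 1
  · ext i j
    simp [Matrix.mul_apply, Complex.mul_re, Finset.sum_add_distrib, sub_eq_add_neg]
  · ext i j
    simp [Matrix.mul_apply, Complex.mul_im, Finset.sum_add_distrib, add_comm]
  · ext i j
    simp [Matrix.mul_apply, Complex.mul_im, Finset.sum_add_distrib, add_comm]
  · ext i j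
    simp [Matrix.mul_apply, Complex.mul_re, Finset.sum_add_distrib, sub_eq_add_neg, add_comm]

theorem rl_sub (u v : Matrix (Fin n) (Fin n) ℂ) : rl (u - v) = rl u - rl v := by
  unfold rl
  rw [sub_eq_add_neg (fromBlocks _ _ _ _), fromBlocks_neg, fromBlocks_add]
  congr 1 <;> ext i j <;> simp [sub_eq_add_neg, add_comm]

theorem rl_star (u : Matrix (Fin n) (Fin n) ℂ) : rl (star u) = (rl u)ᵀ := by
  unfold rl
  rw [fromBlocks_transpose]
  congr 1 <;> ext i j <;> simp [Matrix.star_eq_conjTranspose]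

theorem fr_rl (u : Matrix (Fin n) (Fin n) ℂ) : fr (rl u) = 2 * ∑ i, ∑ j, ‖u i j‖ ^ 2 := by
  unfold fr rl
  rw [Fintype.sum_sum_type]
  simp only [Fintype.sum_sum_type, fromBlocks_apply₁₁, fromBlocks_apply₁₂, fromBlocks_apply₂₁,
    fromBlocks_apply₂₂, Matrix.map_apply, Matrix.neg_apply]
  rw [← Finset.sum_add_distrib, Finset.mul_sum]
  refine Finset.sum_congr rfl fun i _ => ?_
  rw [← Finset.sum_add_distrib, ← Finset.sum_add_distrib, ← Finset.sum_add_distrib, Finset.mul_sum]
  refine Finset.sum_congr rfl fun j _ => ?_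
  rw [← Complex.normSq_eq_norm_sq, Complex.normSq_apply]
  ring

theorem hsd_sq (u v : Matrix (Fin n) (Fin n) ℂ) : fr (rl (u - v)) / n = 2 * hsd u v ^ 2 := by
  unfold hsd
  rw [Real.sq_sqrt (by positivity), fr_rl, mul_div_assoc]
  simp only [Matrix.sub_apply]

theorem rl_orth {u : Matrix (Fin n) (Fin n) ℂ} (hu : u ∈ Matrix.unitaryGroup (Fin n) ℂ) :
    rl u ∈ Matrix.orthogonalGroup (Ix n) ℝ := by
  rw [Matrix.mem_orthogonalGroup_iff]
  rw [Matrix.mem_unitaryGroup_iff] at hu
  rw [← rl_star, ← rl_mul, hu, rl_one]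

end real

section prod

universe u

variable {I : Type u} (n : I → ℕ)

/-- The product of the orthogonal groups. -/
abbrev PP : Type u := ∀ i, Matrix.orthogonalGroup (Ix (n i)) ℝ

/-- The size of the difference of an element to `1` at an index. -/
noncomputable def sz (g : PP n) (i : I) : ℝ := fr ((g i : Matrix (Ix (n i)) (Ix (n i)) ℝ) - 1) / n i

theorem orth_left {m : ℕ} (O : Matrix.orthogonalGroup (Ix m) ℝ) :
    (O : Matrix (Ix m) (Ix m) ℝ)ᵀ * (O : Matrix (Ix m) (Ix m) ℝ) = 1 :=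
  (Matrix.mem_orthogonalGroup_iff' _ _).1 O.2

theorem orth_right {m : ℕ} (O : Matrix.orthogonalGroup (Ix m) ℝ) :
    (O : Matrix (Ix m) (Ix m) ℝ) * (O : Matrix (Ix m) (Ix m) ℝ)ᵀ = 1 :=
  (Matrix.mem_orthogonalGroup_iff _ _).1 O.2

theorem orth_inv {m : ℕ} (O : Matrix.orthogonalGroup (Ix m) ℝ) :
    ((O⁻¹ : Matrix.orthogonalGroup (Ix m) ℝ) : Matrix (Ix m) (Ix m) ℝ)
      = (O : Matrix (Ix m) (Ix m) ℝ)ᵀ := by
  rw [Matrix.UnitaryGroup.inv_val, Matrix.star_eq_conjTranspose,
    Matrix.conjTranspose_eq_transpose_of_trivial]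

theorem sz_nonneg (g : PP n) (i : I) : 0 ≤ sz n g i :=
  div_nonneg (fr_nonneg _) (Nat.cast_nonneg _)

theorem sz_one (i : I) : sz n 1 i = 0 := by
  unfold sz
  have : ((1 : PP n) i : Matrix (Ix (n i)) (Ix (n i)) ℝ) - 1 = 0 := by
    simp
  rw [this]
  simp [fr]

theorem sz_mul (g h : PP n) (i : I) : sz n (g * h) i ≤ 2 * sz n g i + 2 * sz n h i := by
  unfold sz
  rw [← mul_div_assoc, ← mul_div_assoc, ← add_div]
  refine div_le_div_of_nonneg_right ?_ (Nat.cast_nonneg _)
  have h1 : (((g * h) i : Matrix.orthogonalGroup (Ix (n i)) ℝ) : Matrix (Ix (n i)) (Ix (n i)) ℝ) - 1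
      = ((g i : Matrix (Ix (n i)) (Ix (n i)) ℝ) - 1)
        + (g i : Matrix (Ix (n i)) (Ix (n i)) ℝ) * ((h i : Matrix (Ix (n i)) (Ix (n i)) ℝ) - 1) := by
    rw [Pi.mul_apply, Matrix.UnitaryGroup.mul_val, Matrix.mul_sub, Matrix.mul_one]
    abel
  rw [h1]
  refine (fr_add_le _ _).trans (le_of_eq ?_)
  rw [fr_mul_left (orth_left (g i))]

theorem sz_inv (g : PP n) (i : I) : sz n g⁻¹ i = sz n g i := by
  unfold sz
  rw [Pi.inv_apply, orth_inv, ← fr_transpose, transpose_sub, transpose_transpose, transpose_one]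

theorem sz_conj (g h : PP n) (i : I) : sz n (g * h * g⁻¹) i = sz n h i := by
  unfold sz
  have h1 : (((g * h * g⁻¹) i : Matrix.orthogonalGroup (Ix (n i)) ℝ) :
      Matrix (Ix (n i)) (Ix (n i)) ℝ) - 1
      = ((g i : Matrix (Ix (n i)) (Ix (n i)) ℝ)
        * ((h i : Matrix (Ix (n i)) (Ix (n i)) ℝ) - 1))
          * (g i : Matrix (Ix (n i)) (Ix (n i)) ℝ)ᵀ := by
    rw [Pi.mul_apply, Pi.mul_apply, Pi.inv_apply, Matrix.UnitaryGroup.mul_val,
      Matrix.UnitaryGroup.mul_val, orth_inv, Matrix.mul_sub, Matrix.mul_one, Matrix.sub_mul,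
      orth_right]
  rw [h1, fr_mul_right (by rw [transpose_transpose]; exact orth_left (g i)),
    fr_mul_left (orth_left (g i))]

/-- The subgroup of the elements tending to `1`. -/
def KK (l : Filter I) : Subgroup (PP n) where
  carrier := {g | Tendsto (sz n g) l (𝓝 0)}
  one_mem' := by
    have : sz n (1 : PP n) = fun _ => 0 := funext (sz_one n)
    simp only [Set.mem_ofPred_eq, this]
    exact tendsto_const_nhds
  mul_mem' := by
    intro a b ha hb
    have h1 : Tendsto (fun i => 2 * sz n a i + 2 * sz n b i) l (𝓝 0) := by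
      simpa using (Tendsto.const_mul 2 ha).add (Tendsto.const_mul 2 hb)
    exact squeeze_zero (sz_nonneg n _) (sz_mul n a b) h1
  inv_mem' := by
    intro a ha
    have : sz n a⁻¹ = sz n a := funext (sz_inv n a)
    simp only [Set.mem_ofPred_eq, this]
    exact ha

theorem mem_KK (l : Filter I) (g : PP n) : g ∈ KK n l ↔ Tendsto (sz n g) l (𝓝 0) := Iff.rfl

instance KK_normal (l : Filter I) : (KK n l).Normal where
  conj_mem := by
    intro h hh g
    rw [mem_KK] at hh ⊢
    have : sz n (g * h * g⁻¹) = sz n h := funext (sz_conj n g h)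
    rw [this]
    exact hh

end prod

universe u

/-- Module FH10. -/
theorem st_quo (h : StUni) : StQuo.{u} := by
  intro A _ hA k hk a
  classical
  obtain ⟨δ, hδ, hA⟩ := hA
  have key : ∀ i : Finset A × ℕ, ∃ (n : ℕ) (σ : A → Matrix (Fin n) (Fin n) ℂ)
      (x : Matrix (Ix n) (Ix n) ℝ),
      (∀ g, σ g ∈ Matrix.unitaryGroup (Fin n) ℂ) ∧
      (∀ g ∈ i.1, ∀ h ∈ i.1, hsd (σ (g * h)) (σ g * σ h) < 1 / ((i.2 : ℝ) + 1)) ∧
      (∀ g ∈ i.1, g ≠ 1 → δ g ≤ hsd (σ g) 1) ∧ xᵀ = x ∧ x * x = 1 ∧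
      word (fun j => rl (σ (a j))) x * word (fun j => rl (σ (a j))) x = 1 := by
    intro i
    obtain ⟨n, σ, h1, h2, h3⟩ := hA i.1 (1 / ((i.2 : ℝ) + 1)) (by positivity)
    obtain ⟨x, h4, h5, h6⟩ := h n k hk (fun j => σ (a j)) (fun j => h1 _)
    exact ⟨n, σ, x, h1, h2, h3, h4, h5, h6⟩
  choose n σ x h1 h2 h3 h4 h5 h6 using key
  set l : Filter (Finset A × ℕ) := atTop with hl
  have hne : l.NeBot := by
    rw [hl]
    infer_instance
  -- the representatives
  let F : A → PP n := fun g i => ⟨rl (σ i g), rl_orth (h1 i g)⟩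
  let X : PP n := fun i => ⟨x i, by
    rw [Matrix.mem_orthogonalGroup_iff, h4, h5]⟩
  have hmul : ∀ g g' : A, (QuotientGroup.mk (F (g * g')) : PP n ⧸ KK n l)
      = QuotientGroup.mk (F g) * QuotientGroup.mk (F g') := by
    intro g g'
    rw [← QuotientGroup.mk_mul, QuotientGroup.eq, mem_KK]
    have hs : ∀ i, sz n ((F (g * g'))⁻¹ * (F g * F g')) i
        = 2 * hsd (σ i g * σ i g') (σ i (g * g')) ^ 2 := by
      intro i
      rw [← hsd_sq]
      unfold sz
      congr 1
      rw [rl_sub, rl_mul]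
      have e1 : (((F (g * g'))⁻¹ * (F g * F g')) i : Matrix (Ix (n i)) (Ix (n i)) ℝ) - 1
          = (rl (σ i (g * g')))ᵀ * (rl (σ i g) * rl (σ i g') - rl (σ i (g * g'))) := by
        rw [Matrix.mul_sub, Pi.mul_apply, Pi.inv_apply, Pi.mul_apply, Matrix.UnitaryGroup.mul_val,
          Matrix.UnitaryGroup.mul_val, orth_inv]
        have := orth_left (F (g * g') i)
        rw [this]
      rw [e1, fr_mul_left]
      rw [transpose_transpose]
      exact orth_right (F (g * g') i)
    have hs' : sz n ((F (g * g'))⁻¹ * (F g * F g'))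
        = fun i => 2 * hsd (σ i g * σ i g') (σ i (g * g')) ^ 2 := funext hs
    rw [hs']
    have hsymm : ∀ i, hsd (σ i g * σ i g') (σ i (g * g')) = hsd (σ i (g * g')) (σ i g * σ i g') := by
      intro i
      unfold hsd
      simp only [norm_sub_rev]
    have hb : ∀ᶠ i in l, hsd (σ i g * σ i g') (σ i (g * g')) < 1 / ((i.2 : ℝ) + 1) := by
      rw [hl]
      refine (eventually_ge_atTop (({g, g'} : Finset A), 0)).mono fun i hi => ?_
      rw [hsymm]
      have hi1 : ({g, g'} : Finset A) ⊆ i.1 := hi.1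
      exact h2 i g (hi1 (by simp)) g' (hi1 (by simp))
    have h0 : ∀ i, 0 ≤ hsd (σ i g * σ i g') (σ i (g * g')) := fun i => Real.sqrt_nonneg _
    have ht : Tendsto (fun i : Finset A × ℕ => (1 : ℝ) / ((i.2 : ℝ) + 1)) l (𝓝 0) := by
      have := tendsto_one_div_add_atTop_nhds_zero_nat (𝕜 := ℝ)
      exact this.comp (by rw [hl, ← prod_atTop_atTop_eq]; exact tendsto_snd)
    have ht2 : Tendsto (fun i => hsd (σ i g * σ i g') (σ i (g * g'))) l (𝓝 0) :=
      squeeze_zero' (Eventually.of_forall h0) (hb.mono fun i hi => hi.le) ht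
    simpa using (ht2.pow 2).const_mul 2
  let f : A →* (PP n ⧸ KK n l) := MonoidHom.mk' (fun g => QuotientGroup.mk (F g)) hmul
  refine ⟨PP n ⧸ KK n l, inferInstance, f, QuotientGroup.mk X, ?_, ?_, ?_⟩
  · rw [injective_iff_map_eq_one]
    intro g hg
    by_contra hg1
    have hg' : (QuotientGroup.mk (F g) : PP n ⧸ KK n l) = 1 := hg
    rw [QuotientGroup.eq_one_iff, mem_KK] at hg'
    have hs : sz n (F g) = fun i => 2 * hsd (σ i g) 1 ^ 2 := by
      funext i
      rw [← hsd_sq]
      unfold sz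
      congr 1
      rw [rl_sub, rl_one]
    rw [hs] at hg'
    have hd := hδ g hg1
    have hlow : ∀ᶠ i in l, 2 * δ g ^ 2 ≤ 2 * hsd (σ i g) 1 ^ 2 := by
      rw [hl]
      refine (eventually_ge_atTop (({g} : Finset A), 0)).mono fun i hi => ?_
      have hi1 : ({g} : Finset A) ⊆ i.1 := hi.1
      have := h3 i g (hi1 (by simp)) hg1
      gcongr
    have := le_of_tendsto_of_tendsto tendsto_const_nhds hg' hlow
    nlinarith [sq_pos_of_pos hd]
  · rw [← QuotientGroup.mk_mul, QuotientGroup.eq_one_iff]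
    have : X * X = 1 := by
      funext i
      apply Subtype.ext
      rw [Pi.mul_apply, Matrix.UnitaryGroup.mul_val]
      exact h5 i
    rw [this]
    exact one_mem _
  · have e1 : (List.ofFn fun i => f (a i) * (QuotientGroup.mk X : PP n ⧸ KK n l)).prod
        = QuotientGroup.mk' (KK n l) (List.ofFn fun i => F (a i) * X).prod := by
      rw [map_list_prod, List.map_ofFn]
      rfl
    have e2 : (List.ofFn fun i => F (a i) * X).prod * (List.ofFn fun i => F (a i) * X).prod = 1 := by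
      funext i
      apply Subtype.ext
      have e3 : (((List.ofFn fun j => F (a j) * X).prod i : Matrix.orthogonalGroup (Ix (n i)) ℝ) :
          Matrix (Ix (n i)) (Ix (n i)) ℝ) = word (fun j => rl (σ i (a j))) (x i) := by
        have := map_list_prod ((Submonoid.subtype (Matrix.orthogonalGroup (Ix (n i)) ℝ)).comp
          (Pi.evalMonoidHom (fun i => Matrix.orthogonalGroup (Ix (n i)) ℝ) i))
          (List.ofFn fun j => F (a j) * X)
        rw [List.map_ofFn] at this
        exact this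
      rw [Pi.mul_apply, Matrix.UnitaryGroup.mul_val, e3]
      exact h6 i
    rw [e1, ← map_mul, e2, map_one]

end Pool.Agent.Helper12.FH
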